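import Pool.Agent.Helper5.WD.Stmts

/-! Row GPOS of sheet WD. -/

set_option autoImplicit false

open Finset Pool.Agent.Helper8.UN Pool.Agent.Helper5.FV

namespace Pool.Agent.Helper5.WD

theorem gpos_mem_CC {n k : ℕ} {E : Finset (Finset (Fin n))} {W : Finset (Fin n)}
    {f : Fin n → ℕ} : f ∈ CC E W k ↔
      ((∀ v ∈ W, f v ∈ Finset.Icc 1 k) ∧ ∀ v, v ∉ W → f v = 0) ∧ Prp E W f := by
  unfold CC
  simp only [Finset.mem_filter, Fintype.mem_piFinset]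
  refine and_congr_left fun _ => ⟨fun h => ⟨fun v hv => ?_, fun v hv => ?_⟩, fun h v => ?_⟩
  · have := h v
    rwa [if_pos hv] at this
  · have := h v
    rw [if_neg hv] at this
    exact Finset.mem_singleton.mp this
  · by_cases hv : v ∈ W
    · rw [if_pos hv]; exact h.1 v hv
    · rw [if_neg hv]; exact Finset.mem_singleton.mpr (h.2 v hv)

theorem gpos_mem_SS {n k : ℕ} {E : Finset (Finset (Fin n))} {W : Finset (Fin n)}
    {f : Fin n → ℕ} : f ∈ SS E W k ↔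
      f ∈ CC E W k ∧ ∀ i ∈ Finset.Icc 1 k, ∃ v ∈ W, f v = i := by
  unfold SS
  simp only [Finset.mem_filter]

theorem gpos_empty {n : ℕ} (k : ℕ) {E : Finset (Finset (Fin n))} (hE : Two E) :
    0 < PP E ∅ k := by
  unfold PP
  refine Finset.card_pos.mpr ⟨fun _ => 0, gpos_mem_CC.mpr ⟨⟨fun v hv => ?_, fun v _ => rfl⟩, ?_⟩⟩
  · exact absurd hv (Finset.notMem_empty v)
  · intro e he hsub
    have h2 := hE e he
    rw [Finset.subset_empty.mp hsub, Finset.card_empty] at h2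
    omega

theorem gpos_inj {n k : ℕ} {E : Finset (Finset (Fin n))} (hE : Two E) (W : Finset (Fin n))
    (hW : W.card = k) : 0 < AA E W k := by
  classical
  have ε : W ≃ Fin k := Finset.equivFinOfCardEq hW
  obtain ⟨f, hf1, hf0⟩ : ∃ f : Fin n → ℕ, (∀ (v : Fin n) (h : v ∈ W), f v = (ε ⟨v, h⟩ : ℕ) + 1) ∧
      ∀ v, v ∉ W → f v = 0 :=
    ⟨fun v => if h : v ∈ W then (ε ⟨v, h⟩ : ℕ) + 1 else 0, fun v h => dif_pos h,
      fun v h => dif_neg h⟩
  unfold AA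
  refine Finset.card_pos.mpr ⟨f, gpos_mem_SS.mpr ⟨gpos_mem_CC.mpr ⟨⟨fun v hv => ?_, hf0⟩, ?_⟩, ?_⟩⟩
  · rw [Finset.mem_Icc, hf1 v hv]
    have := (ε ⟨v, hv⟩).isLt
    omega
  · intro e he hsub
    obtain ⟨a, ha, b, hb, hab⟩ := Finset.one_lt_card.mp (lt_of_lt_of_le (by norm_num) (hE e he))
    refine ⟨a, ha, b, hb, fun hEq => hab ?_⟩
    rw [hf1 a (hsub ha), hf1 b (hsub hb)] at hEq
    have h3 : ε ⟨a, hsub ha⟩ = ε ⟨b, hsub hb⟩ := Fin.ext (by omega)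
    have h4 := ε.injective h3
    exact congrArg Subtype.val h4
  · intro i hi
    rw [Finset.mem_Icc] at hi
    have hlt : i - 1 < k := by omega
    refine ⟨(ε.symm ⟨i - 1, hlt⟩ : Fin n), (ε.symm ⟨i - 1, hlt⟩).2, ?_⟩
    rw [hf1 _ (ε.symm ⟨i - 1, hlt⟩).2]
    have h5 : ε ⟨((ε.symm ⟨i - 1, hlt⟩ : W) : Fin n), (ε.symm ⟨i - 1, hlt⟩).2⟩ =
        ⟨i - 1, hlt⟩ := ε.apply_symm_apply _
    rw [h5]
    show i - 1 + 1 = i
    omega

theorem st_GPOS (h1 : ST_GF1) (_h2 : ST_F2) : ST_GPOS := by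
  intro n D k0 k E W hE hGD hk0 hDk
  have hkD : 0 < k - D := by omega
  constructor
  · have h := (h1 n D k0 k E ∅ W hE hGD hk0 (Finset.disjoint_empty_left W)).1
    rw [Finset.empty_union] at h
    exact lt_of_lt_of_le (Nat.mul_pos (pow_pos hkD _) (gpos_empty k hE)) h
  · intro hkW
    obtain ⟨W₀, hsub, hcard⟩ := Finset.exists_subset_card_eq hkW
    have h := (h1 n D k0 k E W₀ (W \ W₀) hE hGD hk0 Finset.disjoint_sdiff).2.2
    rw [Finset.union_sdiff_of_subset hsub] at h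
    exact lt_of_lt_of_le (Nat.mul_pos (pow_pos hkD _) (gpos_inj hE W₀ hcard)) h

end Pool.Agent.Helper5.WD
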